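import Mathlib
import Pool.Agent.W187.WP.Stmts
import Pool.Agent.W187.WQ.BotS

/-!
# A variational formula for the exponent of the error term of the prime number theorem: statements
-/

open Complex MeasureTheory Set Filter
open scoped ComplexConjugate
open Pool.Agent.W187.WP Pool.Agent.W187.WQ

namespace Pool.Agent.W187.MW

/-- autocorrelation -/
noncomputable def corr (f : ℝ → ℂ) (v : ℝ) : ℂ := ∫ u : ℝ, f u * conj (f (u - v))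

/-- the quadratic form of the error term of the prime number theorem -/
noncomputable def cform (f : ℝ → ℂ) : ℝ :=
  2 * (∫ v in Ioi (0 : ℝ), (corr f v).re * Real.exp (v / 2)) -
    2 * ∑' n : ℕ, ArithmeticFunction.vonMangoldt n / Real.sqrt n * (corr f (Real.log n)).re

/-- the energy -/
noncomputable def en (f : ℝ → ℂ) : ℝ := (∫ u, ‖f u‖ ^ 2) + ∫ u, ‖deriv f u‖ ^ 2

/-- A: the archimedean terms of the explicit formula are bounded by the energy -/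
def S_A : Prop := ∃ C : ℝ, 0 < C ∧ ∀ f : ℝ → ℂ, ContDiff ℝ 2 f → HasCompactSupport f →
  ∀ W : ℝ, Weil f W → |cform f - W| ≤ C * en f

/-- C1: as `S_KK`, with a bound of the derivative -/
def S_KK1 : Prop := ∀ (ρ₀ : ℂ) (σ δ η : ℝ), ρ₀ ∈ Zr → 1 / 2 < σ → σ < 1 → 0 < δ → 0 < η →
  ∀ᶠ L : ℝ in atTop, ∃ k : ℝ → ℂ, ContDiff ℝ 2 k ∧ (∀ u, δ < |u| → k u = 0) ∧
    (∀ u, ‖k u‖ ≤ Real.exp (η * L)) ∧ (∀ u, ‖deriv k u‖ ≤ Real.exp (η * L)) ∧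
    Real.exp (-(η * L)) ≤ ‖lap k (ρ₀ - 1 / 2)‖ ∧
    (∀ z : ℂ, |z.re| ≤ 1 / 2 → ‖lap k z‖ ≤ Real.exp (η * L) / (1 + z.im ^ 2)) ∧
    (∀ ρ ∈ Zr, ρ ≠ ρ₀ → σ ≤ ρ.re → ‖lap k (ρ - 1 / 2)‖ ≤ Real.exp (-L) / (1 + ρ.im ^ 2))

/-- C2: as `S_NEG`, with the energy -/
def S_NEG1 : Prop := ∀ θ : ℝ, 1 / 2 ≤ θ → (∃ s : ℂ, riemannZeta s = 0 ∧ θ < s.re) →
  ∀ᶠ L : ℝ in atTop, ∃ f : ℝ → ℂ,
    ContDiff ℝ 2 f ∧ (∀ u, L / 2 < |u| → f u = 0) ∧ 0 < ∫ u, ‖f u‖ ^ 2 ∧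
    ∀ W : ℝ, Weil f W → W ≤ -Real.exp ((θ - 1 / 2) * L) * en f

end Pool.Agent.W187.MW
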