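import Pool.Agent.W187.MW.Low
import Pool.Agent.W187.WQ.Bot
import Pool.Agent.W12.WQ.Coer0
import Pool.Agent.W12.WQ.Chebl
import Pool.Agent.W187.WQ.BotF
import Pool.Agent.W190.A16
import Pool.Agent.H353R3.S8
import Pool.Agent.H295R2.T6b

/-!
# A variational formula for the exponent of the error term of the prime number theorem
-/

set_option autoImplicit false

open Complex MeasureTheory Set Filter
open scoped ComplexConjugate Topology
open Pool.Agent.W187.WP Pool.Agent.W187.WQ Pool.Agent.W8.WP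

namespace Pool.Agent.W187.MW

/-- the quadratic form of `x - ψ(x)` -/
noncomputable def qf (f : ℝ → ℝ) : ℝ :=
  2 * (∫ v in Ioi (0 : ℝ), GG f v * Real.exp (v / 2)) -
    2 * ∑' n : ℕ, ArithmeticFunction.vonMangoldt n / Real.sqrt n * GG f (Real.log n)

/-- the energy -/
noncomputable def ee (f : ℝ → ℝ) : ℝ := (∫ u, f u ^ 2) + ∫ u, deriv f u ^ 2

/-- test functions -/
def RT (L : ℝ) (f : ℝ → ℝ) : Prop := ContDiff ℝ 2 f ∧ ∀ u : ℝ, L / 2 < |u| → f u = 0

/-- the bottom -/
noncomputable def bot (L : ℝ) : ℝ :=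
  sInf {r : ℝ | ∃ f : ℝ → ℝ, RT L f ∧ 0 < ∫ u, f u ^ 2 ∧ r = qf f / ee f}

theorem RT.mono {L L' : ℝ} {f : ℝ → ℝ} (h : RT L f) (hL : L ≤ L') : RT L' f :=
  ⟨h.1, fun u hu => h.2 u (by linarith)⟩

theorem RT.cs {L : ℝ} {f : ℝ → ℝ} (h : RT L f) : HasCompactSupport f := by
  refine HasCompactSupport.intro (isCompact_Icc (a := -(L / 2)) (b := L / 2)) fun u hu => h.2 u ?_
  by_contra h
  exact hu (abs_le.1 (not_lt.1 h))

theorem RT.zero' {L : ℝ} {f : ℝ → ℝ} (h : RT L f) : ∀ x, L / 2 + 1 ≤ |x| → f x = 0 :=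
  fun x hx => h.2 x (by linarith)

theorem RT.int {L : ℝ} {f : ℝ → ℝ} (h : RT L f) : Integrable (fun u => f u ^ 2) := by
  refine (h.1.continuous.pow 2).integrable_of_hasCompactSupport ?_
  refine HasCompactSupport.intro (isCompact_Icc (a := -(L / 2)) (b := L / 2)) fun u hu => ?_
  change f u ^ 2 = 0
  rw [h.2 u]
  · norm_num
  · by_contra h
    exact hu (abs_le.1 (not_lt.1 h))

theorem RT.int' {L : ℝ} {f : ℝ → ℝ} (h : RT L f) : Integrable (fun u => deriv f u ^ 2) := by
  have hd : Continuous (deriv f) := h.1.continuous_deriv (by norm_num)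
  have h1 : Integrable (fun u => deriv f u * deriv f u) :=
    (hd.mul hd).integrable_of_hasCompactSupport h.cs.deriv.mul_left
  refine h1.congr (Eventually.of_forall fun u => ?_)
  simp only [pow_two]

theorem RT.GGc {L : ℝ} {f : ℝ → ℝ} (h : RT L f) : Continuous (GG f) :=
  (Pool.Agent.W586.WP.GG_contDiff h.1 h.zero').continuous

theorem RT.GG0 {L : ℝ} {f : ℝ → ℝ} (h : RT L f) (v : ℝ) (hv : L + 2 ≤ v) : GG f v = 0 :=
  Pool.Agent.W586.WP.GG_zero h.zero' v (by linarith)

theorem RT.I1 {L : ℝ} {f : ℝ → ℝ} (h : RT L f) :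
    IntegrableOn (fun v => GG f v * Real.exp (v / 2)) (Ioi (0 : ℝ)) := by
  have h1 : IntegrableOn (fun v => GG f v * Real.exp (v / 2)) (Icc (0 : ℝ) (max 0 (L + 2))) := by
    refine ContinuousOn.integrableOn_Icc ?_
    exact (h.GGc.mul (by fun_prop)).continuousOn
  refine (h1.of_forall_sdiff_eq_zero measurableSet_Ioi ?_)
  intro v hv
  have : max 0 (L + 2) < v := by
    by_contra hcon
    exact hv.2 ⟨le_of_lt hv.1, not_lt.1 hcon⟩
  rw [h.GG0 v ((le_max_right _ _).trans this.le), zero_mul]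

theorem RT.S1 {L : ℝ} {f : ℝ → ℝ} (h : RT L f) :
    Summable (fun n : ℕ => ArithmeticFunction.vonMangoldt n / Real.sqrt n * GG f (Real.log n)) := by
  refine summable_of_ne_finset_zero (s := Finset.range (⌈Real.exp (L + 2)⌉₊ + 1)) fun n hn => ?_
  rw [Finset.mem_range, not_lt] at hn
  have h1 : Real.exp (L + 2) ≤ (n : ℝ) := by
    have h2 : (⌈Real.exp (L + 2)⌉₊ : ℝ) ≤ n := by exact_mod_cast (by omega : ⌈Real.exp (L + 2)⌉₊ ≤ n)
    exact (Nat.le_ceil _).trans h2
  have h2 : L + 2 ≤ Real.log n := by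
    rw [← Real.log_exp (L + 2)]
    exact Real.log_le_log (Real.exp_pos _) h1
  rw [h.GG0 _ h2, mul_zero]

theorem ee_nonneg (f : ℝ → ℝ) : 0 ≤ ee f :=
  add_nonneg (integral_nonneg fun u => sq_nonneg _) (integral_nonneg fun u => sq_nonneg _)

section split

variable {L : ℝ} {f : ℝ → ℂ}

theorem re_RT (hf : ContDiff ℝ 2 f) (hs : ∀ u, L / 2 < |u| → f u = 0) :
    RT L (fun u => (f u).re) :=
  ⟨reCLM.contDiff.comp hf, fun u hu => by simp [hs u hu]⟩

theorem im_RT (hf : ContDiff ℝ 2 f) (hs : ∀ u, L / 2 < |u| → f u = 0) :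
    RT L (fun u => (f u).im) :=
  ⟨imCLM.contDiff.comp hf, fun u hu => by simp [hs u hu]⟩

theorem corr_re (hf : ContDiff ℝ 2 f) (hs : ∀ u, L / 2 < |u| → f u = 0) (v : ℝ) :
    (corr f v).re = GG (fun u => (f u).re) v + GG (fun u => (f u).im) v := by
  have h1 := re_RT hf hs
  have h2 := im_RT hf hs
  have hc : HasCompactSupport f := cs_of2 hs
  have hi : Integrable (fun u : ℝ => f u * conj (f (u - v))) := by
    refine Continuous.integrable_of_hasCompactSupport ?_ hc.mul_right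
    exact hf.continuous.mul (continuous_conj.comp (hf.continuous.comp (continuous_id.sub continuous_const)))
  unfold corr
  have e0 : (∫ u : ℝ, f u * conj (f (u - v))).re = ∫ u : ℝ, (f u * conj (f (u - v))).re :=
    (integral_re hi).symm
  rw [e0]
  unfold GG
  have i1 : Integrable (fun x : ℝ => (f (x + v)).re * (f x).re) := by
    refine Continuous.integrable_of_hasCompactSupport ?_ h1.cs.mul_left
    exact (h1.1.continuous.comp (continuous_id.add continuous_const)).mul h1.1.continuous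
  have i2 : Integrable (fun x : ℝ => (f (x + v)).im * (f x).im) := by
    refine Continuous.integrable_of_hasCompactSupport ?_ h2.cs.mul_left
    exact (h2.1.continuous.comp (continuous_id.add continuous_const)).mul h2.1.continuous
  rw [← integral_add i1 i2]
  have e1 := integral_add_right_eq_self (μ := volume)
    (fun u : ℝ => (f u * conj (f (u - v))).re) v
  rw [← e1]
  refine integral_congr_ae (Eventually.of_forall fun u => ?_)
  simp only [add_sub_cancel_right, mul_re, conj_re, conj_im]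
  ring

theorem cform_split (hf : ContDiff ℝ 2 f) (hs : ∀ u, L / 2 < |u| → f u = 0) :
    cform f = qf (fun u => (f u).re) + qf (fun u => (f u).im) := by
  have h1 := re_RT hf hs
  have h2 := im_RT hf hs
  unfold cform qf
  have e1 : ∫ v in Ioi (0 : ℝ), (corr f v).re * Real.exp (v / 2) =
      (∫ v in Ioi (0 : ℝ), GG (fun u => (f u).re) v * Real.exp (v / 2)) +
        ∫ v in Ioi (0 : ℝ), GG (fun u => (f u).im) v * Real.exp (v / 2) := by
    rw [← integral_add h1.I1 h2.I1]
    refine integral_congr_ae (Eventually.of_forall fun v => ?_)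
    simp only [corr_re hf hs v]
    ring
  have e2 : ∑' n : ℕ, ArithmeticFunction.vonMangoldt n / Real.sqrt n * (corr f (Real.log n)).re =
      (∑' n : ℕ, ArithmeticFunction.vonMangoldt n / Real.sqrt n *
        GG (fun u => (f u).re) (Real.log n)) +
      ∑' n : ℕ, ArithmeticFunction.vonMangoldt n / Real.sqrt n *
        GG (fun u => (f u).im) (Real.log n) := by
    rw [← h1.S1.tsum_add h2.S1]
    refine tsum_congr fun n => ?_
    rw [corr_re hf hs]
    ring
  rw [e1, e2]
  ring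

theorem deriv_re (hf : ContDiff ℝ 2 f) (u : ℝ) :
    deriv (fun u => (f u).re) u = (deriv f u).re := by
  have h := (hf.differentiable (by norm_num) u).hasDerivAt
  exact (reCLM.hasFDerivAt.comp_hasDerivAt u h).deriv

theorem deriv_im (hf : ContDiff ℝ 2 f) (u : ℝ) :
    deriv (fun u => (f u).im) u = (deriv f u).im := by
  have h := (hf.differentiable (by norm_num) u).hasDerivAt
  exact (imCLM.hasFDerivAt.comp_hasDerivAt u h).deriv

theorem en_split (hf : ContDiff ℝ 2 f) (hs : ∀ u, L / 2 < |u| → f u = 0) :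
    en f = ee (fun u => (f u).re) + ee (fun u => (f u).im) := by
  have h1 := re_RT hf hs
  have h2 := im_RT hf hs
  unfold en ee
  have e1 : ∫ u, ‖f u‖ ^ 2 = (∫ u, (f u).re ^ 2) + ∫ u, (f u).im ^ 2 := by
    rw [← integral_add h1.int h2.int]
    refine integral_congr_ae (Eventually.of_forall fun u => ?_)
    simp only [← Complex.normSq_eq_norm_sq, Complex.normSq_apply]
    ring
  have e2 : ∫ u, ‖deriv f u‖ ^ 2 = (∫ u, deriv (fun u => (f u).re) u ^ 2) +
      ∫ u, deriv (fun u => (f u).im) u ^ 2 := by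
    rw [← integral_add h1.int' h2.int']
    refine integral_congr_ae (Eventually.of_forall fun u => ?_)
    simp only [deriv_re hf, deriv_im hf, ← Complex.normSq_eq_norm_sq, Complex.normSq_apply]
    ring
  rw [e1, e2]
  ring

end split

theorem qf_zero : qf (fun _ => 0) = 0 := by
  unfold qf GG
  simp

theorem ee_zero : ee (fun _ => 0) = 0 := by
  unfold ee
  simp

theorem cform_real {L : ℝ} {f : ℝ → ℝ} (h : RT L f) : cform (fun u => (f u : ℂ)) = qf f := by
  have hf : ContDiff ℝ 2 (fun u => (f u : ℂ)) := ofRealCLM.contDiff.comp h.1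
  rw [cform_split (L := L) hf (fun u hu => by simp [h.2 u hu])]
  simp only [ofReal_re, ofReal_im, qf_zero, add_zero]

theorem en_real {L : ℝ} {f : ℝ → ℝ} (h : RT L f) : en (fun u => (f u : ℂ)) = ee f := by
  have hf : ContDiff ℝ 2 (fun u => (f u : ℂ)) := ofRealCLM.contDiff.comp h.1
  rw [en_split (L := L) hf (fun u hu => by simp [h.2 u hu])]
  simp only [ofReal_re, ofReal_im, ee_zero, add_zero]

theorem weil_ex {L : ℝ} {f : ℝ → ℂ} (hf : ContDiff ℝ 2 f) (hs : ∀ u, L / 2 < |u| → f u = 0) :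
    ∃ W : ℝ, Weil f W := by
  have hT : Test L f := ⟨hf, 0, fun u hu => hs u (by simpa using hu)⟩
  obtain ⟨W, h1, _⟩ := low_all (Pool.Agent.W12.WQ.coer0 heng) Pool.Agent.W12.WQ.chebl
    (le_max_right L (Real.log 5)) f (hT.mono (le_max_left _ _))
  exact ⟨W, h1⟩

theorem qf_low (hA : S_A) : ∃ C : ℝ, 0 < C ∧ ∀ θ : ℝ, 1 / 2 ≤ θ →
    (∀ s : ℂ, θ < s.re → riemannZeta s ≠ 0) → ∀ L : ℝ, 0 < L → ∀ f : ℝ → ℝ, RT L f →
    -(C * (L + 1) * Real.exp ((θ - 1 / 2) * L)) * ee f ≤ qf f := by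
  obtain ⟨A, hA0, hA⟩ := hA
  obtain ⟨B, hB0, hB⟩ := low1
  refine ⟨A + B, by positivity, fun θ hθ hfree L hL f hf => ?_⟩
  have hfc : ContDiff ℝ 2 (fun u => (f u : ℂ)) := ofRealCLM.contDiff.comp hf.1
  have hsc : ∀ u, L / 2 < |u| → (fun u => (f u : ℂ)) u = 0 := fun u hu => by simp [hf.2 u hu]
  obtain ⟨W, hW⟩ := weil_ex hfc hsc
  have h1 := hA _ hfc (cs_of2 hsc) W hW
  have h2 := hB θ hθ hfree L hL _ hfc hsc W hW
  rw [cform_real hf, en_real hf] at h1
  rw [en_real hf] at h2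
  have h3 := (abs_le.1 h1).1
  have he := ee_nonneg f
  have h4 : 1 ≤ Real.exp ((θ - 1 / 2) * L) := Real.one_le_exp (by
    apply mul_nonneg _ hL.le
    linarith)
  have h5 : A + B * L * Real.exp ((θ - 1 / 2) * L) ≤
      (A + B) * (L + 1) * Real.exp ((θ - 1 / 2) * L) := by
    have x1 : A ≤ A * Real.exp ((θ - 1 / 2) * L) := le_mul_of_one_le_right hA0.le h4
    have x2 : 0 ≤ (A * L + B) * Real.exp ((θ - 1 / 2) * L) := by positivity
    nlinarith
  have h6 := mul_le_mul_of_nonneg_right h5 he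
  linarith

theorem bddB (hA : S_A) (L : ℝ) :
    BddBelow {r : ℝ | ∃ f : ℝ → ℝ, RT L f ∧ 0 < ∫ u, f u ^ 2 ∧ r = qf f / ee f} := by
  obtain ⟨C, hC0, hC⟩ := qf_low hA
  refine ⟨-(C * (max L 1 + 1) * Real.exp ((1 - 1 / 2) * max L 1)), ?_⟩
  rintro r ⟨f, hf, hp, rfl⟩
  have hL : 0 < max L 1 := lt_of_lt_of_le one_pos (le_max_right _ _)
  have h1 := hC 1 (by norm_num) (fun s hs => riemannZeta_ne_zero_of_one_lt_re hs) (max L 1) hL f
    (hf.mono (le_max_left _ _))
  have he : 0 < ee f := add_pos_of_pos_of_nonneg hp (integral_nonneg fun u => sq_nonneg _)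
  rw [le_div_iff₀ he]
  exact h1

/-- the bottom is a lower bound -/
theorem bot_le (hA : S_A) {L : ℝ} {f : ℝ → ℝ} (hf : RT L f) : bot L * ee f ≤ qf f := by
  have hI0 : 0 ≤ ∫ u, f u ^ 2 := integral_nonneg fun u => sq_nonneg _
  rcases hI0.eq_or_lt with h0 | h0
  · have hf0 : f = fun _ => 0 := by
      have h1 := (integral_eq_zero_iff_of_nonneg (fun u => sq_nonneg (f u)) hf.int).1 h0.symm
      have h2 : (fun u => f u ^ 2) = 0 :=
        (Continuous.ae_eq_iff_eq volume (hf.1.continuous.pow 2) continuous_zero).1 h1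
      funext u
      have := congrFun h2 u
      simpa using this
    rw [hf0, qf_zero, ee_zero, mul_zero]
  · have he : 0 < ee f := add_pos_of_pos_of_nonneg h0 (integral_nonneg fun u => sq_nonneg _)
    have := csInf_le (bddB hA L) ⟨f, hf, h0, rfl⟩
    rwa [le_div_iff₀ he] at this

theorem exists_RT {L : ℝ} (hL : 0 < L) : ∃ f : ℝ → ℝ, RT L f ∧ 0 < ∫ u, f u ^ 2 := by
  let φ : ContDiffBump (0 : ℝ) := ⟨L / 4, L / 2, by positivity, by linarith⟩
  have hT : RT L (fun u : ℝ => φ u) := by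
    refine ⟨φ.contDiff, fun u hu => ?_⟩
    change φ u = 0
    rw [φ.zero_of_le_dist]
    rw [Real.dist_eq, sub_zero]
    exact hu.le
  refine ⟨_, hT, ?_⟩
  rw [integral_pos_iff_support_of_nonneg (fun u => by positivity) hT.int]
  refine (IsOpen.measure_pos volume ?_ ⟨0, ?_⟩)
  · exact (hT.1.continuous.pow 2).isOpen_support
  · simp only [Function.mem_support]
    have : φ 0 = 1 := φ.one_of_mem_closedBall (Metric.mem_closedBall_self (by positivity))
    rw [this]; norm_num

theorem le_bot {L κ : ℝ} (hL : 0 < L) (h : ∀ f, RT L f → κ * ee f ≤ qf f) : κ ≤ bot L := by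
  obtain ⟨f, hf, hp⟩ := exists_RT hL
  refine le_csInf ⟨_, f, hf, hp, rfl⟩ ?_
  rintro r ⟨g, hg, hgp, rfl⟩
  have he : 0 < ee g := add_pos_of_pos_of_nonneg hgp (integral_nonneg fun u => sq_nonneg _)
  rw [le_div_iff₀ he]
  exact h g hg

theorem bot_neg (hA : S_A) (hN : S_NEG1) {θ : ℝ} (hθ : 1 / 2 ≤ θ)
    (hz : ∃ s : ℂ, riemannZeta s = 0 ∧ θ < s.re) :
    ∀ᶠ L : ℝ in atTop, bot L ≤ -Real.exp ((θ - 1 / 2) * L) := by
  obtain ⟨s, hs0, hs⟩ := hz
  set θ' : ℝ := (θ + s.re) / 2 with hθ'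
  obtain ⟨A, hA0, hA'⟩ := id hA
  have h1 := hN θ' (by rw [hθ']; linarith) ⟨s, hs0, by rw [hθ']; linarith⟩
  have h2 : Tendsto (fun L : ℝ => Real.exp ((θ' - θ) * L)) atTop atTop :=
    Real.tendsto_exp_atTop.comp (tendsto_id.const_mul_atTop (by rw [hθ']; linarith))
  filter_upwards [h1, h2.eventually_ge_atTop (A + 1), eventually_ge_atTop 0] with L h1 h2 hL0
  obtain ⟨f, hf, hsf, hp, hW⟩ := h1
  obtain ⟨W, hWf⟩ := weil_ex hf hsf
  have h3 := hW W hWf
  have h4 := hA' f hf (cs_of2 hsf) W hWf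
  have h5 := (abs_le.1 h4).2
  have hen : 0 < en f := add_pos_of_pos_of_nonneg hp (integral_nonneg fun u => by positivity)
  have h6 := bot_le hA (re_RT hf hsf)
  have h7 := bot_le hA (im_RT hf hsf)
  have h8 : bot L * en f ≤ cform f := by
    rw [cform_split hf hsf, en_split hf hsf, mul_add]
    exact add_le_add h6 h7
  have h9 : Real.exp ((θ' - 1 / 2) * L) = Real.exp ((θ' - θ) * L) * Real.exp ((θ - 1 / 2) * L) := by
    rw [← Real.exp_add]
    congr 1
    ring
  have h10 : 1 ≤ Real.exp ((θ - 1 / 2) * L) := Real.one_le_exp (mul_nonneg (by linarith) hL0)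
  have h11 : A + Real.exp ((θ - 1 / 2) * L) ≤ Real.exp ((θ' - 1 / 2) * L) := by
    rw [h9]
    nlinarith
  have h12 : bot L * en f ≤ -Real.exp ((θ - 1 / 2) * L) * en f := by
    have := mul_le_mul_of_nonneg_right h11 hen.le
    linarith
  exact le_of_mul_le_mul_right h12 hen

theorem bot_pos (hA : S_A) {θ : ℝ} (hθ : 1 / 2 ≤ θ)
    (hfree : ∀ s : ℂ, θ < s.re → riemannZeta s ≠ 0) {ε : ℝ} (hε : 0 < ε) :
    ∀ᶠ L : ℝ in atTop, -Real.exp ((θ - 1 / 2 + ε) * L) ≤ bot L := by
  obtain ⟨C, hC0, hC⟩ := qf_low hA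
  have h1 : Tendsto (fun L : ℝ => (C * (L + 1)) / Real.exp (ε * L)) atTop (𝓝 0) := by
    have h2 : Tendsto (fun L : ℝ => L ^ 1 * Real.exp (-ε * L)) atTop (𝓝 0) := by
      have := Real.tendsto_pow_mul_exp_neg_atTop_nhds_zero 1
      have h3 := this.comp (tendsto_id.const_mul_atTop hε)
      have h4 := h3.const_mul (1 / ε)
      rw [mul_zero] at h4
      refine h4.congr fun L => ?_
      simp only [Function.comp_apply, id_eq, pow_one]
      field_simp
    have h3 : Tendsto (fun L : ℝ => Real.exp (-ε * L)) atTop (𝓝 0) := by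
      refine Real.tendsto_exp_atBot.comp ?_
      exact tendsto_id.const_mul_atTop_of_neg (by linarith)
    have h4 := (h2.add h3).const_mul C
    rw [add_zero, mul_zero] at h4
    refine h4.congr fun L => ?_
    rw [neg_mul, Real.exp_neg]
    field_simp
  filter_upwards [h1.eventually_le_const (show (0 : ℝ) < 1 by norm_num), eventually_gt_atTop 0]
    with L h2 hL
  rw [div_le_one (Real.exp_pos _)] at h2
  refine le_bot hL fun f hf => ?_
  refine le_trans ?_ (hC θ hθ hfree L hL f hf)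
  refine mul_le_mul_of_nonneg_right ?_ (ee_nonneg f)
  have h3 : Real.exp ((θ - 1 / 2 + ε) * L) = Real.exp (ε * L) * Real.exp ((θ - 1 / 2) * L) := by
    rw [← Real.exp_add]
    congr 1
    ring
  rw [h3, neg_le_neg_iff]
  exact mul_le_mul_of_nonneg_right h2 (Real.exp_pos _).le

/-- supremum of the real parts of the zeros -/
noncomputable def Th : ℝ :=
  sSup (Complex.re '' {s : ℂ | riemannZeta s = 0 ∧ 0 < s.re ∧ s.re < 1})

theorem Th_free (s : ℂ) (hs : max Th (1 / 2) < s.re) : riemannZeta s ≠ 0 := by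
  intro h0
  have h1 : s.re < 1 := by
    by_contra h
    exact riemannZeta_ne_zero_of_one_le_re (not_lt.1 h) h0
  have h2 : (1 : ℝ) / 2 ≤ max Th (1 / 2) := le_max_right _ _
  have h3 : s.re ≤ Th := by
    refine le_csSup ⟨1, ?_⟩ ⟨s, ⟨h0, by linarith, h1⟩, rfl⟩
    rintro _ ⟨z, hz, rfl⟩
    exact hz.2.2.le
  have h4 : Th ≤ max Th (1 / 2) := le_max_left _ _
  linarith

theorem main (hA : S_A) (hN : S_NEG1) :
    (∀ (L : ℝ) (f : ℝ → ℝ), RT L f → bot L * ee f ≤ qf f) ∧
    Tendsto (fun L : ℝ => Real.log (max 1 (-bot L)) / L) atTop (𝓝 (Th - 1 / 2)) ∧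
    (∀ θ : ℝ, 1 / 2 ≤ θ →
      ((∀ s : ℂ, θ < s.re → riemannZeta s ≠ 0) ↔
        ∀ ε : ℝ, 0 < ε → ∃ᶠ L : ℝ in atTop, -Real.exp ((θ - 1 / 2 + ε) * L) ≤ bot L)) := by
  refine ⟨fun L f hf => bot_le hA hf, ?_, ?_⟩
  · have hTh : 1 / 2 ≤ Th := Pool.Agent.H295R2.half_le_zetaSup
    have hfree : ∀ s : ℂ, Th < s.re → riemannZeta s ≠ 0 := by
      have h1 := Th_free
      rwa [max_eq_left hTh] at h1
    rw [Metric.tendsto_atTop]
    intro ε hε
    have up : ∀ᶠ L : ℝ in atTop, Real.log (max 1 (-bot L)) / L ≤ Th - 1 / 2 + ε / 2 := by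
      filter_upwards [bot_pos hA hTh hfree (half_pos hε), eventually_gt_atTop 0] with L h1 hL
      rw [div_le_iff₀ hL]
      have h2 : max 1 (-bot L) ≤ Real.exp ((Th - 1 / 2 + ε / 2) * L) := by
        refine max_le (Real.one_le_exp ?_) (by linarith)
        have : 0 ≤ Th - 1 / 2 + ε / 2 := by linarith
        positivity
      calc Real.log (max 1 (-bot L)) ≤ Real.log (Real.exp ((Th - 1 / 2 + ε / 2) * L)) :=
            Real.log_le_log (lt_of_lt_of_le one_pos (le_max_left _ _)) h2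
        _ = _ := Real.log_exp _
    have down : ∀ᶠ L : ℝ in atTop, Th - 1 / 2 - ε / 2 ≤ Real.log (max 1 (-bot L)) / L := by
      by_cases hc : Th - 1 / 2 - ε / 2 ≤ 0
      · filter_upwards [eventually_gt_atTop 0] with L hL
        refine hc.trans (div_nonneg (Real.log_nonneg (le_max_left _ _)) hL.le)
      · push Not at hc
        have hz : ∃ s : ℂ, riemannZeta s = 0 ∧ Th - ε / 2 < s.re := by
          have h1 : (Complex.re '' {s : ℂ | riemannZeta s = 0 ∧ 0 < s.re ∧ s.re < 1}).Nonempty :=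
            Pool.Agent.H295R2.zset_nonempty
          obtain ⟨_, ⟨s, hs, rfl⟩, h2⟩ := exists_lt_of_lt_csSup h1
            (show Th - ε / 2 < sSup (Complex.re '' {s : ℂ | riemannZeta s = 0 ∧ 0 < s.re ∧ s.re < 1})
              by change Th - ε / 2 < Th; linarith)
          exact ⟨s, hs.1, h2⟩
        filter_upwards [bot_neg hA hN (θ := Th - ε / 2) (by linarith) hz, eventually_gt_atTop 0]
          with L h1 hL
        rw [le_div_iff₀ hL]
        have h2 : Real.exp ((Th - ε / 2 - 1 / 2) * L) ≤ max 1 (-bot L) :=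
          le_trans (by linarith) (le_max_right _ _)
        calc (Th - 1 / 2 - ε / 2) * L = Real.log (Real.exp ((Th - ε / 2 - 1 / 2) * L)) := by
              rw [Real.log_exp]
              ring
          _ ≤ _ := Real.log_le_log (Real.exp_pos _) h2
    obtain ⟨N, hN⟩ := (up.and down).exists_forall_of_atTop
    refine ⟨N, fun L hL => ?_⟩
    obtain ⟨h1, h2⟩ := hN L hL
    rw [Real.dist_eq, abs_lt]
    constructor <;> linarith
  · intro θ hθ
    constructor
    · intro hfree ε hε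
      exact (bot_pos hA hθ hfree hε).frequently
    · intro h s hs h0
      have h1 := bot_neg hA hN (θ := (θ + s.re) / 2) (by linarith) ⟨s, h0, by linarith⟩
      have h2 := h ((s.re - θ) / 4) (by linarith)
      obtain ⟨L, ⟨h3, h4⟩, h5⟩ :=
        ((h2.and_eventually h1).and_eventually (eventually_gt_atTop 0)).exists
      have h6 : Real.exp ((θ - 1 / 2 + (s.re - θ) / 4) * L) <
          Real.exp (((θ + s.re) / 2 - 1 / 2) * L) := by
        apply Real.exp_lt_exp.2
        nlinarith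
      linarith

end Pool.Agent.W187.MW
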