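import Pool.Agent.W187.MW.Stm
import Pool.Agent.W8.WP.ZrSum
import Pool.Agent.W8.WP.LapB

/-!
# Lower bound of the Weil form in terms of the energy
-/

set_option autoImplicit false

open Complex MeasureTheory Set Filter
open scoped ComplexConjugate
open Pool.Agent.W187.WP Pool.Agent.W187.WQ Pool.Agent.W8.WP

namespace Pool.Agent.W187.MW

theorem cs_sq {g : ℝ → ℝ} (hg : Continuous g) {a b : ℝ} (hab : a < b) :
    (∫ x in a..b, g x) ^ 2 ≤ (b - a) * ∫ x in a..b, g x ^ 2 := by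
  set I := ∫ x in a..b, g x with hI
  set J := ∫ x in a..b, g x ^ 2 with hJ
  have h0 : 0 ≤ ∫ x in a..b, (g x - I / (b - a)) ^ 2 :=
    intervalIntegral.integral_nonneg hab.le fun x _ => sq_nonneg _
  have hi1 : IntervalIntegrable (fun x => g x ^ 2) volume a b :=
    (hg.pow 2).intervalIntegrable _ _
  have hi2 : IntervalIntegrable (fun x => 2 * (I / (b - a)) * g x) volume a b :=
    (continuous_const.mul hg).intervalIntegrable _ _
  have e : ∫ x in a..b, (g x - I / (b - a)) ^ 2 =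
      J - 2 * (I / (b - a)) * I + (b - a) * (I / (b - a)) ^ 2 := by
    have e1 : ∀ x, (g x - I / (b - a)) ^ 2 = (g x ^ 2 - 2 * (I / (b - a)) * g x) +
        (I / (b - a)) ^ 2 := fun x => by ring
    simp_rw [e1]
    rw [intervalIntegral.integral_add (hi1.sub hi2) (by simp),
      intervalIntegral.integral_sub hi1 hi2, intervalIntegral.integral_const_mul,
      intervalIntegral.integral_const, smul_eq_mul]
  rw [e] at h0
  have hb : 0 < b - a := by linarith
  have e2 : J - 2 * (I / (b - a)) * I + (b - a) * (I / (b - a)) ^ 2 = J - I ^ 2 / (b - a) := by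
    field_simp
    ring
  rw [e2] at h0
  have h1 : I ^ 2 / (b - a) ≤ J := by linarith
  rw [div_le_iff₀ hb] at h1
  linarith

theorem cs_of2 {g : ℝ → ℂ} {a : ℝ} (hs : ∀ u, a < |u| → g u = 0) : HasCompactSupport g := by
  refine HasCompactSupport.intro (isCompact_Icc (a := -a) (b := a)) fun u hu => hs u ?_
  by_contra h
  exact hu (abs_le.1 (not_lt.1 h))

/-- Cauchy-Schwarz for the Laplace transform -/
theorem lap_sq {g : ℝ → ℂ} (hg : Continuous g) {L : ℝ} (hL : 0 < L)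
    (hs : ∀ u, L / 2 < |u| → g u = 0) {r : ℝ} {z : ℂ} (hz : |z.re| ≤ r) :
    ‖lap g z‖ ^ 2 ≤ L * Real.exp (r * L) * ∫ u, ‖g u‖ ^ 2 := by
  have hr : 0 ≤ r := (abs_nonneg _).trans hz
  have hc := cs_of2 hs
  have h1 : ‖lap g z‖ ≤ Real.exp (r * L / 2) * ∫ u in (-(L / 2))..(L / 2), ‖g u‖ := by
    unfold lap
    have e : ∫ u : ℝ, g u * cexp (z * u) = ∫ u in (-(L / 2))..(L / 2), g u * cexp (z * u) := by
      rw [intervalIntegral.integral_of_le (by linarith), ← integral_Icc_eq_integral_Ioc,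
        setIntegral_eq_integral_of_forall_compl_eq_zero]
      intro u hu
      rw [hs u, zero_mul]
      by_contra h
      exact hu (abs_le.1 (not_lt.1 h))
    rw [e, ← intervalIntegral.integral_const_mul]
    refine intervalIntegral.norm_integral_le_of_norm_le (by linarith) ?_ ?_
    · refine Eventually.of_forall fun u hu => ?_
      rw [norm_mul, Complex.norm_exp, mul_comm]
      refine mul_le_mul_of_nonneg_right (Real.exp_le_exp.2 ?_) (norm_nonneg _)
      have h2 : (z * u).re = z.re * u := by simp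
      rw [h2]
      have h3 : |u| ≤ L / 2 := abs_le.2 ⟨hu.1.le, hu.2⟩
      calc z.re * u ≤ |z.re * u| := le_abs_self _
        _ = |z.re| * |u| := abs_mul _ _
        _ ≤ r * (L / 2) := mul_le_mul hz h3 (abs_nonneg _) hr
        _ = r * L / 2 := by ring
    · exact (continuous_const.mul hg.norm).intervalIntegrable _ _
  have h2 := cs_sq hg.norm (a := -(L / 2)) (b := L / 2) (by linarith)
  have e3 : ∫ u in (-(L / 2))..(L / 2), ‖g u‖ ^ 2 = ∫ u, ‖g u‖ ^ 2 := by
    rw [intervalIntegral.integral_of_le (by linarith), ← integral_Icc_eq_integral_Ioc,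
      setIntegral_eq_integral_of_forall_compl_eq_zero]
    intro u hu
    rw [hs u, norm_zero]
    · norm_num
    · by_contra h
      exact hu (abs_le.1 (not_lt.1 h))
  rw [e3] at h2
  have h0 : 0 ≤ ∫ u in (-(L / 2))..(L / 2), ‖g u‖ :=
    intervalIntegral.integral_nonneg (by linarith) fun u _ => norm_nonneg _
  calc ‖lap g z‖ ^ 2 ≤ (Real.exp (r * L / 2) * ∫ u in (-(L / 2))..(L / 2), ‖g u‖) ^ 2 :=
        pow_le_pow_left₀ (norm_nonneg _) h1 2
    _ = Real.exp (r * L) * (∫ u in (-(L / 2))..(L / 2), ‖g u‖) ^ 2 := by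
        rw [mul_pow, ← Real.exp_nat_mul]
        congr 2
        push_cast
        ring
    _ ≤ Real.exp (r * L) * ((L / 2 - -(L / 2)) * ∫ u, ‖g u‖ ^ 2) :=
        mul_le_mul_of_nonneg_left h2 (Real.exp_pos _).le
    _ = _ := by ring

theorem deriv_supp {f : ℝ → ℂ} {a : ℝ} (hs : ∀ u, a < |u| → f u = 0) :
    ∀ u, a < |u| → deriv f u = 0 := by
  intro u hu
  have h1 : f =ᶠ[nhds u] fun _ => 0 := by
    have : ∀ᶠ v in nhds u, a < |v| :=
      (continuous_abs.tendsto u).eventually (lt_mem_nhds hu)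
    filter_upwards [this] with v hv
    exact hs v hv
  rw [h1.deriv_eq]
  simp

theorem en_nonneg (f : ℝ → ℂ) : 0 ≤ en f :=
  add_nonneg (integral_nonneg fun u => by positivity) (integral_nonneg fun u => by positivity)

theorem lap_en {f : ℝ → ℂ} (hf : ContDiff ℝ 2 f) {L : ℝ} (hL : 0 < L)
    (hs : ∀ u, L / 2 < |u| → f u = 0) {r : ℝ} {z : ℂ} (hz : |z.re| ≤ r) :
    (1 + z.im ^ 2) * ‖lap f z‖ ^ 2 ≤ L * Real.exp (r * L) * en f := by
  have h1 := lap_sq hf.continuous hL hs hz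
  have h2 := lap_sq (hf.continuous_deriv (by norm_num)) hL (deriv_supp hs) hz
  rw [lap_parts (hf.of_le (by norm_num)) (cs_of2 hs), norm_neg, norm_mul, mul_pow] at h2
  have h3 : z.im ^ 2 ≤ ‖z‖ ^ 2 := by
    rw [← Complex.normSq_eq_norm_sq, Complex.normSq_apply]
    nlinarith [sq_nonneg z.re]
  have h4 : z.im ^ 2 * ‖lap f z‖ ^ 2 ≤ ‖z‖ ^ 2 * ‖lap f z‖ ^ 2 :=
    mul_le_mul_of_nonneg_right h3 (by positivity)
  unfold en
  rw [mul_add]
  linarith

/-- the lower bound of the Weil form -/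
theorem low1 : ∃ C : ℝ, 0 < C ∧ ∀ θ : ℝ, 1 / 2 ≤ θ → (∀ s : ℂ, θ < s.re → riemannZeta s ≠ 0) →
    ∀ L : ℝ, 0 < L → ∀ f : ℝ → ℂ, ContDiff ℝ 2 f → (∀ u, L / 2 < |u| → f u = 0) →
    ∀ W : ℝ, Weil f W → -(C * L * Real.exp ((θ - 1 / 2) * L)) * en f ≤ W := by
  set M : ℝ := ∑' ρ : Zr, (mult ρ : ℝ) / (1 + (ρ : ℂ).im ^ 2) with hM
  have hM0 : 0 ≤ M := tsum_nonneg fun ρ => by positivity
  refine ⟨M + 1, by linarith, fun θ hθ hfree L hL f hf hs W hW => ?_⟩
  set K : ℝ := L * Real.exp ((θ - 1 / 2) * L) * en f with hK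
  have hK0 : 0 ≤ K := by
    have := en_nonneg f
    positivity
  have hterm : ∀ ρ : Zr, -(K * ((mult ρ : ℝ) / (1 + (ρ : ℂ).im ^ 2))) ≤ ((mult ρ : ℂ) *
      (lap f ((ρ : ℂ) - 1 / 2) * conj (lap f (1 / 2 - conj (ρ : ℂ))))).re := by
    rintro ⟨ρ, hρ⟩
    have hre1 : ρ.re ≤ θ := by
      by_contra h
      exact hfree ρ (not_le.1 h) hρ.1
    have hre2 : 1 - θ ≤ ρ.re := by
      by_contra h
      have h1 := Zr_symm hρ
      refine hfree (1 - ρ) ?_ h1.1
      simp only [sub_re, one_re]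
      linarith
    have hz1 : |(ρ - 1 / 2).re| ≤ θ - 1 / 2 := by
      have : (ρ - 1 / 2).re = ρ.re - 1 / 2 := by simp
      rw [this, abs_le]
      constructor <;> linarith
    have hz2 : |(1 / 2 - conj ρ).re| ≤ θ - 1 / 2 := by
      have : (1 / 2 - conj ρ).re = 1 / 2 - ρ.re := by simp
      rw [this, abs_le]
      constructor <;> linarith
    have h1 := lap_en hf hL hs hz1
    have h2 := lap_en hf hL hs hz2
    have i1 : (ρ - 1 / 2).im = ρ.im := by simp
    have i2 : (1 / 2 - conj ρ).im = ρ.im := by simp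
    rw [i1, ← hK] at h1
    rw [i2, ← hK] at h2
    have hp : 0 < 1 + ρ.im ^ 2 := by positivity
    have h3 : ‖lap f (ρ - 1 / 2)‖ * ‖lap f (1 / 2 - conj ρ)‖ ≤ K / (1 + ρ.im ^ 2) := by
      rw [le_div_iff₀ hp]
      nlinarith [sq_nonneg (‖lap f (ρ - 1 / 2)‖ - ‖lap f (1 / 2 - conj ρ)‖)]
    have h4 : |((mult ρ : ℂ) * (lap f (ρ - 1 / 2) * conj (lap f (1 / 2 - conj ρ)))).re| ≤
        (mult ρ : ℝ) * (K / (1 + ρ.im ^ 2)) := by
      refine (abs_re_le_norm _).trans ?_
      rw [norm_mul, norm_mul, RCLike.norm_conj, Complex.norm_natCast]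
      exact mul_le_mul_of_nonneg_left h3 (Nat.cast_nonneg _)
    have h5 := (abs_le.1 h4).1
    calc -(K * ((mult ρ : ℝ) / (1 + ρ.im ^ 2))) = -((mult ρ : ℝ) * (K / (1 + ρ.im ^ 2))) := by ring
      _ ≤ _ := h5
  have h1 : HasSum (fun ρ : Zr => ((mult ρ : ℂ) *
      (lap f ((ρ : ℂ) - 1 / 2) * conj (lap f (1 / 2 - conj (ρ : ℂ))))).re) W := by
    have := Complex.hasSum_re hW
    rwa [Complex.ofReal_re] at this
  have h2 : HasSum (fun ρ : Zr => -(K * ((mult ρ : ℝ) / (1 + (ρ : ℂ).im ^ 2)))) (-(K * M)) :=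
    (zr_summable.hasSum.mul_left K).neg
  have h3 := hasSum_le hterm h2 h1
  refine le_trans ?_ h3
  have h4 : (M + 1) * L * Real.exp ((θ - 1 / 2) * L) * en f = (M + 1) * K := by
    rw [hK]
    ring
  have h5 : -((M + 1) * L * Real.exp ((θ - 1 / 2) * L)) * en f = -((M + 1) * K) := by
    rw [← h4]
    ring
  rw [h5]
  nlinarith

end Pool.Agent.W187.MW
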